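import Pool.Agent.N783.PF.Lat
import Pool.Agent.N507.PQ.Hrb

/-!
# Small linearly independent vectors in a lattice

Project PF (helper783), part RED (helper255).
-/

set_option autoImplicit false
set_option linter.all false

open Polynomial IsDedekindDomain Matrix NumberField
open scoped Classical

namespace Pool.Agent.N255.PF

open Pool.Agent.N783.PF
open Pool.Agent.N507.PQ (q cR diag_eq pd_iff det_cR)

section

variable {F L : Type} [Field F] [NumberField F] [Field L] [NumberField L] [Algebra F L]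

/-- `f'(θ) ≠ 0`. -/
theorem deriv_ne {g : ℕ} {f : (𝓞 F)[X]} {θ : L} (h : IsGen g f θ) :
    aeval θ (derivative (fF f)) ≠ 0 := by
  intro h0
  have hmon : (fF f).Monic := h.mon.map _
  have hdeg : (fF f).natDegree = 2 * g + 1 := by
    rw [fF, h.mon.natDegree_map]; exact h.deg
  have hd : (derivative (fF f)).natDegree < 2 * g + 1 := by
    have := Polynomial.natDegree_derivative_lt (p := fF f) (by omega)
    omega
  rw [Polynomial.aeval_eq_sum_range' hd, ← Fin.sum_univ_eq_sum_range
    (fun i => (derivative (fF f)).coeff i • θ ^ i)] at h0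
  have hl : LinearIndependent F (fun i : Fin (2 * g + 1) => θ ^ (i : ℕ)) := by
    have := h.basis.linearIndependent
    have e : ⇑h.basis = fun i : Fin (2 * g + 1) => θ ^ (i : ℕ) := funext fun i => h.basis_apply i
    rwa [e] at this
  have h1 := Fintype.linearIndependent_iff.1 hl _ h0 (Fin.last (2 * g))
  rw [Polynomial.coeff_derivative] at h1
  have h2 : (fF f).coeff ((Fin.last (2 * g) : Fin (2 * g + 1)) + 1 : ℕ) = 1 := by
    have := hmon.coeff_natDegree
    rw [hdeg] at this
    exact this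
  rw [h2, one_mul] at h1
  have h3 : ((2 * g + 1 : ℕ) : F) = 0 := by
    push_cast
    have : ((Fin.last (2 * g) : Fin (2 * g + 1)) : ℕ) = 2 * g := rfl
    rw [this] at h1
    push_cast at h1
    exact h1
  exact absurd (Nat.cast_eq_zero.1 h3) (by omega)

/-- Greedy choice of vectors which are linearly independent over `F`. -/
theorem greedy (n d : ℕ) (hd : Module.finrank ℚ F = d) (hd0 : 0 < d)
    (b : Fin (n * d) → L) (hb : LinearIndependent ℚ b) :
    ∀ i ≤ n, ∃ j : Fin i → Fin (n * d), (∀ k, (j k : ℕ) ≤ k * d) ∧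
      LinearIndependent F (b ∘ j) := by
  intro i
  induction i with
  | zero =>
    intro _
    exact ⟨fun k => k.elim0, fun k => k.elim0, linearIndependent_empty_type⟩
  | succ i ih =>
    intro hi
    obtain ⟨j, hj, hli⟩ := ih (by omega)
    have hlt : i * d < n * d := Nat.mul_lt_mul_of_pos_right (by omega) hd0
    have key : ∃ m : Fin (n * d), (m : ℕ) ≤ i * d ∧
        b m ∉ Submodule.span F (Set.range (b ∘ j)) := by
      by_contra hcon
      push Not at hcon
      set W := Submodule.span F (Set.range (b ∘ j)) with hW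
      have hfr : Module.finrank F W = i := by
        rw [hW, finrank_span_eq_card hli, Fintype.card_fin]
      have hfin : Module.finrank ℚ W = d * i := by
        rw [← hd, ← hfr]
        exact (Module.finrank_mul_finrank ℚ F W).symm
      have hle : ∀ k : Fin (i * d + 1), (k : ℕ) < n * d := fun k => by
        have := k.2
        omega
      let v : Fin (i * d + 1) → W := fun k => ⟨b ⟨k, hle k⟩, hcon _ (by
        have := k.2
        show (k : ℕ) ≤ i * d
        omega)⟩
      have hv : LinearIndependent ℚ v := by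
        have h1 : LinearIndependent ℚ (fun k : Fin (i * d + 1) => b ⟨k, hle k⟩) :=
          hb.comp (fun k : Fin (i * d + 1) => (⟨k, hle k⟩ : Fin (n * d))) (by
            intro a c hac
            have := congrArg Fin.val hac
            exact Fin.ext this)
        exact LinearIndependent.of_comp (W.subtype.restrictScalars ℚ) h1
      haveI : Module.Finite ℚ W := Module.Finite.trans F W
      have h2 := hv.fintype_card_le_finrank
      rw [Fintype.card_fin, hfin, mul_comm d i] at h2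
      omega
    obtain ⟨m, hm, hm'⟩ := key
    refine ⟨Fin.snoc j m, ?_, ?_⟩
    · intro k
      refine Fin.lastCases ?_ (fun k => ?_) k
      · rw [Fin.snoc_last]
        exact hm
      · rw [Fin.snoc_castSucc]
        exact hj k
    · rw [Fin.comp_snoc]
      exact linearIndependent_finSnoc.2 ⟨hli, hm'⟩

/-- The Gram matrix of the majorant. -/
noncomputable def gram {n : ℕ} (D : L) (b : Fin n → L) : Matrix (Fin n) (Fin n) ℝ :=
  Matrix.of fun i j => ∑ τ : L →+* ℂ, (τ (b i) * (starRingEnd ℂ) (τ (b j))).re / ‖τ D‖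

theorem norm_sq_sum {n : ℕ} (x : Fin n → ℝ) (c : Fin n → ℂ) :
    ‖∑ i, (x i : ℂ) * c i‖ ^ 2 =
      ∑ i, ∑ j, x i * (c i * (starRingEnd ℂ) (c j)).re * x j := by
  have h1 : ((‖∑ i, (x i : ℂ) * c i‖ ^ 2 : ℝ) : ℂ) =
      (∑ i, (x i : ℂ) * c i) * (starRingEnd ℂ) (∑ i, (x i : ℂ) * c i) := by
    rw [Complex.mul_conj, Complex.normSq_eq_norm_sq]
  have h2 : ‖∑ i, (x i : ℂ) * c i‖ ^ 2 =
      ((∑ i, (x i : ℂ) * c i) * (starRingEnd ℂ) (∑ i, (x i : ℂ) * c i)).re := by
    rw [← h1, Complex.ofReal_re]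
  rw [h2, map_sum, Finset.sum_mul_sum, Complex.re_sum]
  refine Finset.sum_congr rfl fun i _ => ?_
  rw [Complex.re_sum]
  refine Finset.sum_congr rfl fun j _ => ?_
  rw [map_mul, Complex.conj_ofReal]
  have e : (x i : ℂ) * c i * ((x j : ℂ) * (starRingEnd ℂ) (c j)) =
      ((x i * x j : ℝ) : ℂ) * (c i * (starRingEnd ℂ) (c j)) := by
    push_cast
    ring
  rw [e, Complex.re_ofReal_mul]
  ring

theorem q_gram {n : ℕ} (D : L) (b : Fin n → L) (x : Fin n → ℝ) :
    q (gram D b) x = ∑ τ : L →+* ℂ, ‖∑ i, (x i : ℂ) * τ (b i)‖ ^ 2 / ‖τ D‖ := by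
  unfold q gram
  simp only [Matrix.of_apply]
  have e1 : ∀ τ : L →+* ℂ, ‖∑ i, (x i : ℂ) * τ (b i)‖ ^ 2 / ‖τ D‖ =
      ∑ i, ∑ j, x i * ((τ (b i) * (starRingEnd ℂ) (τ (b j))).re / ‖τ D‖) * x j := by
    intro τ
    rw [norm_sq_sum, Finset.sum_div]
    refine Finset.sum_congr rfl fun i _ => ?_
    rw [Finset.sum_div]
    refine Finset.sum_congr rfl fun j _ => ?_
    ring
  simp only [e1]
  conv_rhs => rw [Finset.sum_comm]
  refine Finset.sum_congr rfl fun i _ => ?_
  conv_rhs => rw [Finset.sum_comm]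
  refine Finset.sum_congr rfl fun j _ => ?_
  rw [Finset.mul_sum, Finset.sum_mul]

/-- The sum over the embeddings is real. -/
theorem sum_real (D x y : L) :
    ((∑ τ : L →+* ℂ, (τ x * (starRingEnd ℂ) (τ y)).re / ‖τ D‖ : ℝ) : ℂ) =
      ∑ τ : L →+* ℂ, τ x * (starRingEnd ℂ) (τ y) * ((‖τ D‖⁻¹ : ℝ) : ℂ) := by
  set S : ℂ := ∑ τ : L →+* ℂ, τ x * (starRingEnd ℂ) (τ y) * ((‖τ D‖⁻¹ : ℝ) : ℂ) with hS
  have h1 : (starRingEnd ℂ) S = S := by
    rw [hS, map_sum]
    refine Fintype.sum_bijective (ComplexEmbedding.conjugate (K := L))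
      (ComplexEmbedding.involutive_conjugate L).bijective _ _ (fun τ => ?_)
    rw [map_mul, map_mul, Complex.conj_ofReal, ComplexEmbedding.conjugate_coe_eq,
      ComplexEmbedding.conjugate_coe_eq, ComplexEmbedding.conjugate_coe_eq, Complex.norm_conj]
  have h2 : (S.re : ℂ) = S := Complex.conj_eq_iff_re.1 h1
  rw [← h2]
  congr 1
  rw [hS, Complex.re_sum]
  refine Finset.sum_congr rfl fun τ _ => ?_
  rw [Complex.re_mul_ofReal]
  rfl

end

section det

variable {L : Type} [Field L] [NumberField L]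

theorem equiv_exists {n : ℕ} (hn : Module.finrank ℚ L = n) :
    Nonempty (Fin n ≃ (L →ₐ[ℚ] ℂ)) := by
  refine Fintype.card_eq.1 ?_
  rw [Fintype.card_fin, AlgHom.card, hn]

theorem main_det {n : ℕ} (hn : Module.finrank ℚ L = n) (D : L) (hD : D ≠ 0) (b : Fin n → L)
    (hb : LinearIndependent ℚ b) :
    (gram D b).PosDef ∧ (gram D b).det =
      ((|(Matrix.of fun i j => Algebra.trace ℚ L (b i * b j / D)).det| : ℚ) : ℝ) := by
  obtain ⟨e⟩ := equiv_exists (L := L) hn
  set e' : Fin n ≃ (L →+* ℂ) := e.trans (RingHom.equivRatAlgHom L ℂ).symm with he'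
  set M : Matrix (Fin n) (Fin n) ℂ := Matrix.of fun i k => e' k (b i) with hM
  have hM0 : M.det ≠ 0 := by
    haveI : NeZero n := ⟨by rw [← hn]; exact Module.finrank_pos.ne'⟩
    haveI : Nonempty (Fin n) := ⟨0⟩
    set B := basisOfLinearIndependentOfCardEqFinrank hb (by rw [Fintype.card_fin, hn]) with hB
    have h1 := Algebra.discr_not_zero_of_basis ℚ B
    have h2 := Algebra.discr_eq_det_embeddingsMatrixReindex_pow_two ℚ ℂ B e
    have h3 : Algebra.embeddingsMatrixReindex ℚ ℂ B e = M := by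
      ext i k
      rw [hM, hB, coe_basisOfLinearIndependentOfCardEqFinrank]
      rfl
    rw [h3] at h2
    intro h0
    rw [h0, zero_pow two_ne_zero] at h2
    exact h1 ((map_eq_zero (algebraMap ℚ ℂ)).1 h2)
  have hτ : ∀ τ : L →+* ℂ, 0 < ‖τ D‖ := fun τ =>
    norm_pos_iff.2 ((map_ne_zero τ).2 hD)
  refine ⟨?_, ?_⟩
  · rw [pd_iff]
    refine ⟨?_, ?_⟩
    · ext i j
      show ∑ τ : L →+* ℂ, (τ (b j) * (starRingEnd ℂ) (τ (b i))).re / ‖τ D‖ =
        ∑ τ : L →+* ℂ, (τ (b i) * (starRingEnd ℂ) (τ (b j))).re / ‖τ D‖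
      refine Finset.sum_congr rfl fun τ _ => ?_
      congr 1
      simp only [Complex.mul_re, Complex.conj_re, Complex.conj_im]
      ring
    · intro x hx
      rw [q_gram]
      have h0 : ∀ τ : L →+* ℂ, 0 ≤ ‖∑ i, (x i : ℂ) * τ (b i)‖ ^ 2 / ‖τ D‖ := fun τ => by
        have := hτ τ
        positivity
      refine lt_of_le_of_ne (Finset.sum_nonneg fun τ _ => h0 τ) (fun h => ?_)
      have h1 := (Finset.sum_eq_zero_iff_of_nonneg fun τ _ => h0 τ).1 h.symm
      apply hx
      have h2 : (fun i => (x i : ℂ)) = 0 := by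
        refine Matrix.eq_zero_of_vecMul_eq_zero hM0 ?_
        funext k
        have h3 := h1 (e' k) (Finset.mem_univ _)
        rw [div_eq_zero_iff] at h3
        have h4 := h3.resolve_right (hτ _).ne'
        rw [sq_eq_zero_iff, norm_eq_zero] at h4
        exact h4
      funext i
      have h3 : (x i : ℂ) = 0 := congrFun h2 i
      exact Complex.ofReal_eq_zero.1 h3
  · have hc : ((gram D b).det : ℂ) = M.det * (∏ k, ((‖e' k D‖⁻¹ : ℝ) : ℂ)) *
        (starRingEnd ℂ) M.det := by
      have h1 : ((gram D b).det : ℂ) = ((gram D b).map (Complex.ofRealHom)).det :=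
        (Complex.ofRealHom).map_det (gram D b)
      have h2 : (gram D b).map (Complex.ofRealHom) =
          M * Matrix.diagonal (fun k => ((‖e' k D‖⁻¹ : ℝ) : ℂ)) *
            (M.map (starRingEnd ℂ))ᵀ := by
        ext i j
        rw [Matrix.mul_apply, Matrix.map_apply]
        have h3 : (Complex.ofRealHom) (gram D b i j) =
            ((∑ τ : L →+* ℂ, (τ (b i) * (starRingEnd ℂ) (τ (b j))).re / ‖τ D‖ : ℝ) : ℂ) := rfl
        rw [h3, sum_real, ← Equiv.sum_comp e']
        refine Finset.sum_congr rfl fun k _ => ?_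
        rw [Matrix.mul_diagonal, Matrix.transpose_apply, Matrix.map_apply]
        show e' k (b i) * (starRingEnd ℂ) (e' k (b j)) * ((‖e' k D‖⁻¹ : ℝ) : ℂ) =
          e' k (b i) * ((‖e' k D‖⁻¹ : ℝ) : ℂ) * (starRingEnd ℂ) (e' k (b j))
        ring
      rw [h1, h2, Matrix.det_mul, Matrix.det_mul, Matrix.det_diagonal, Matrix.det_transpose]
      congr 1
      exact ((starRingEnd ℂ).map_det M).symm
    have ht : ((((Matrix.of fun i j => Algebra.trace ℚ L (b i * b j / D)).det : ℚ)) : ℂ) =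
        M.det * (∏ k, (e' k D)⁻¹) * M.det := by
      have h1 : ((((Matrix.of fun i j => Algebra.trace ℚ L (b i * b j / D)).det : ℚ)) : ℂ) =
          (((Matrix.of fun i j => Algebra.trace ℚ L (b i * b j / D))).map
            (algebraMap ℚ ℂ)).det :=
        (algebraMap ℚ ℂ).map_det _
      have h2 : ((Matrix.of fun i j => Algebra.trace ℚ L (b i * b j / D))).map
          (algebraMap ℚ ℂ) = M * Matrix.diagonal (fun k => (e' k D)⁻¹) * Mᵀ := by
        ext i j
        rw [Matrix.mul_apply, Matrix.map_apply, Matrix.of_apply, trace_eq_sum_embeddings ℂ,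
          ← Equiv.sum_comp e]
        refine Finset.sum_congr rfl fun k _ => ?_
        rw [Matrix.mul_diagonal, Matrix.transpose_apply, map_div₀, map_mul]
        show e k (b i) * e k (b j) / e k D = e k (b i) * (e k D)⁻¹ * e k (b j)
        ring
      rw [h1, h2, Matrix.det_mul, Matrix.det_mul, Matrix.det_diagonal, Matrix.det_transpose]
    have hH0 : (gram D b).det = ‖M.det‖ ^ 2 * ∏ k, ‖e' k D‖⁻¹ := by
      have h1 : ((gram D b).det : ℂ) = ((‖M.det‖ ^ 2 * ∏ k, ‖e' k D‖⁻¹ : ℝ) : ℂ) := by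
        rw [hc]
        have h2 : M.det * (starRingEnd ℂ) M.det = ((‖M.det‖ ^ 2 : ℝ) : ℂ) := by
          rw [Complex.mul_conj, Complex.normSq_eq_norm_sq]
        rw [Complex.ofReal_mul, ← h2, Complex.ofReal_prod]
        ring
      exact_mod_cast h1
    have hT : ((|(Matrix.of fun i j => Algebra.trace ℚ L (b i * b j / D)).det| : ℚ) : ℝ) =
        ‖M.det‖ ^ 2 * ∏ k, ‖e' k D‖⁻¹ := by
      have h1 : ((|(Matrix.of fun i j => Algebra.trace ℚ L (b i * b j / D)).det| : ℚ) : ℝ) =
          ‖((((Matrix.of fun i j => Algebra.trace ℚ L (b i * b j / D)).det : ℚ)) : ℂ)‖ := by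
        rw [Complex.norm_ratCast, Rat.cast_abs]
      rw [h1, ht, norm_mul, norm_mul, norm_prod]
      simp only [norm_inv]
      ring
    rw [hH0, hT]

end det

/-- Small linearly independent vectors in a lattice. -/
theorem red (hDIS : S_DIS) : S_RED := by
  intro g F _ _
  obtain ⟨C₁, hC₁⟩ := hDIS g F
  set d := Module.finrank ℚ F with hd
  have hd0 : 0 < d := Module.finrank_pos
  obtain ⟨C₂, hC₂, hHRB⟩ := Pool.Agent.N507.PQ.hrb ((2 * g + 1) * d)
  set K : ℝ := max 1 (C₂ * C₁) with hK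
  refine ⟨⌈K⌉₊, ?_⟩
  intro L _ _ _ f θ hG α Λ hα hΛ
  obtain ⟨b, hb, hbΛ, hbd⟩ := hC₁ L f θ hG α Λ hα hΛ
  set D : L := α * aeval θ (derivative (fF f)) with hD
  have hD0 : D ≠ 0 := mul_ne_zero hα (deriv_ne hG)
  have hfr : Module.finrank ℚ L = (2 * g + 1) * d := by
    rw [← Module.finrank_mul_finrank ℚ F L, hG.rank, mul_comm]
  obtain ⟨hpd, hdet⟩ := main_det hfr D hD0 b hb
  obtain ⟨U, hU, hmono, hprod⟩ := hHRB (gram D b) hpd
  have hdet1 : (gram D b).det ≤ C₁ := by
    rw [hdet]
    exact_mod_cast hbd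
  -- the new basis
  set b' : Fin ((2 * g + 1) * d) → L := fun j => ∑ i, (U i j : L) * b i with hb'
  have hHH : ∀ j, ((U.map (Int.cast : ℤ → ℝ))ᵀ * gram D b * U.map (Int.cast : ℤ → ℝ)) j j =
      HH f θ α (b' j) := by
    intro j
    have h1 := diag_eq (gram D b) U j
    rw [show ((U.map (Int.cast : ℤ → ℝ))ᵀ * gram D b * U.map (Int.cast : ℤ → ℝ)) j j =
      q (gram D b) (fun i => (U i j : ℝ)) from h1, q_gram]
    unfold HH
    refine Finset.sum_congr rfl fun τ _ => ?_
    rw [← hD]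
    congr 2
    rw [hb']
    simp only [map_sum, map_mul, map_intCast, Complex.ofReal_intCast]
  simp only [hHH] at hmono hprod
  have hb'li : LinearIndependent ℚ b' := by
    rw [Fintype.linearIndependent_iff]
    intro c hc
    have h1 : ∑ i, ((U.map (Int.cast : ℤ → ℚ)) *ᵥ c) i • b i = 0 := by
      rw [← hc, hb']
      simp only [Matrix.mulVec, dotProduct, Matrix.map_apply, Finset.sum_smul, Finset.smul_sum]
      rw [Finset.sum_comm]
      refine Finset.sum_congr rfl fun j _ => ?_
      refine Finset.sum_congr rfl fun i _ => ?_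
      rw [Algebra.smul_def, Algebra.smul_def, map_mul]
      simp only [map_intCast]
      ring
    have h2 := Fintype.linearIndependent_iff.1 hb _ h1
    have h3 : (U.map (Int.cast : ℤ → ℚ)).det ≠ 0 := by
      have h4 : (U.map (Int.cast : ℤ → ℚ)).det = ((U.det : ℤ) : ℚ) :=
        ((Int.castRingHom ℚ).map_det U).symm
      rw [h4]
      exact_mod_cast hU.ne_zero
    have h5 := Matrix.eq_zero_of_mulVec_eq_zero h3 (funext h2)
    intro i
    exact congrFun h5 i
  have hb'Λ : ∀ j, b' j ∈ Λ := fun j => (hbΛ _).2 ⟨fun i => U i j, rfl⟩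
  -- the choice
  obtain ⟨j, hj, hjli⟩ := greedy (2 * g + 1) d hd.symm hd0 b' hb'li (2 * g + 1) le_rfl
  have hHH0 : ∀ x : L, 0 ≤ HH f θ α x := fun x =>
    Finset.sum_nonneg fun τ _ => div_nonneg (sq_nonneg _) (norm_nonneg _)
  set v : Fin (2 * g + 1) → ℝ := fun i => HH f θ α (b' (j i)) with hv
  have hpow : (∏ i, v i) ^ d ≤ C₂ * C₁ := by
    have h1 : (∏ i, v i) ^ d ≤ ∏ k, HH f θ α (b' k) := by
      rw [← Finset.prod_pow, ← Equiv.prod_comp finProdFinEquiv, Fintype.prod_prod_type]
      refine Finset.prod_le_prod (fun i _ => pow_nonneg (hHH0 _) _) fun i _ => ?_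
      have h2 : ∀ k : Fin d, v i ≤ HH f θ α (b' (finProdFinEquiv (i, k))) := by
        intro k
        refine hmono ?_
        rw [Fin.le_def, finProdFinEquiv_apply_val]
        have := hj i
        show (j i : ℕ) ≤ k + d * i
        rw [mul_comm d]
        omega
      calc v i ^ d = ∏ _k : Fin d, v i := by
            rw [Finset.prod_const, Finset.card_univ, Fintype.card_fin]
        _ ≤ _ := Finset.prod_le_prod (fun k _ => hHH0 _) fun k _ => h2 k
    exact h1.trans (hprod.trans (mul_le_mul_of_nonneg_left hdet1 hC₂.le))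
  have hfin : ∏ i, v i ≤ (⌈K⌉₊ : ℝ) := by
    refine le_trans ?_ (Nat.le_ceil K)
    have h0 : 0 ≤ ∏ i, v i := Finset.prod_nonneg fun i _ => hHH0 _
    rcases le_total (∏ i, v i) 1 with h | h
    · exact h.trans (le_max_left _ _)
    · calc ∏ i, v i = (∏ i, v i) ^ 1 := (pow_one _).symm
        _ ≤ (∏ i, v i) ^ d := pow_le_pow_right₀ h hd0
        _ ≤ C₂ * C₁ := hpow
        _ ≤ K := le_max_right _ _
  -- sorting
  set σ := Tuple.sort v with hσ
  refine ⟨fun i => b' (j (σ i)), fun i => hb'Λ _, ?_, ?_, ?_⟩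
  · exact hjli.comp σ σ.injective
  · exact Tuple.monotone_sort v
  · refine le_trans (le_of_eq ?_) hfin
    exact Equiv.prod_comp σ v

end Pool.Agent.N255.PF
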